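import Pool.Agent.V7H54.U.TwU
import Pool.Agent.V7H54.G4

/-!
# A positive proportion, over all `K` at once

After `N99/PF/Main.lean` (helper99) and `N61/PF/Fin1.lean` (helper61).
-/

set_option autoImplicit false
set_option linter.all false

open Polynomial NumberField IsDedekindDomain
open scoped Classical

namespace Pool.Agent.V7H54.U

open Pool.Agent.V7H54
open Pool.Agent.N783.PF
open Pool.Agent.N352.PJ (dd)
open Pool.Agent.N99.PF (card_fib sum_ddM ht_card ht_scale scale_inj good_card)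
open Pool.Agent.N874.QM (SelM)

/-- The extensions `K`. -/
structure Ext (F : Type) [Field F] [NumberField F] (S : Finset ℕ) (f : (𝓞 F)[X]) (K : Type)
    [Field K] [NumberField K] [Algebra F K] : Prop where
  gal : IsGalois F K
  deg : ∃ n : ℕ, Module.finrank F K = 2 ^ n
  two : ∀ w : HeightOneSpectrum (𝓞 F), (2 : 𝓞 F) ∈ w.asIdeal → Unr F K w
  spl : ∀ q ∈ S, ∀ 𝔔 : Ideal (𝓞 K), 𝔔.IsPrime → (q : 𝓞 K) ∉ 𝔔 ^ 2 ∧
    ((q : 𝓞 K) ∈ 𝔔 → Nat.card (𝓞 K ⧸ 𝔔) = q)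
  ram : ∀ w : HeightOneSpectrum (𝓞 F), ¬ Unr F K w → Irreducible (rd w.asIdeal f)

section scale

variable {F : Type} [Field F] [NumberField F]

theorem rd_scale (v : HeightOneSpectrum (𝓞 F)) {f : (𝓞 F)[X]} (hm : f.Monic) (D : 𝓞 F) :
    rd v.asIdeal (f.scaleRoots D) = (rd v.asIdeal f).scaleRoots (Ideal.Quotient.mk v.asIdeal D) := by
  haveI := v.isMaximal
  haveI : Nontrivial (𝓞 F ⧸ v.asIdeal) := Ideal.Quotient.nontrivial_iff.2 v.isPrime.ne_top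
  rw [rd, rd, map_scaleRoots]
  rw [hm.leadingCoeff, map_one]
  exact one_ne_zero

theorem irr_scale_iff (v : HeightOneSpectrum (𝓞 F)) {f : (𝓞 F)[X]} (hm : f.Monic)
    (hd : 2 ≤ f.natDegree) (D : 𝓞 F) :
    Irreducible (rd v.asIdeal (f.scaleRoots D)) ↔ D ∉ v.asIdeal ∧ Irreducible (rd v.asIdeal f) := by
  haveI := v.isMaximal
  letI : Field (𝓞 F ⧸ v.asIdeal) := Ideal.Quotient.field v.asIdeal
  rw [rd_scale v hm D]
  have hmr : (rd v.asIdeal f).Monic := hm.map _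
  have hdr : (rd v.asIdeal f).natDegree = f.natDegree := hm.natDegree_map _
  constructor
  · intro h
    have hD : D ∉ v.asIdeal := by
      intro hD
      rw [Ideal.Quotient.eq_zero_iff_mem.2 hD, scaleRoots_zero, hmr.leadingCoeff, one_smul, hdr] at h
      have h2 : (X : (𝓞 F ⧸ v.asIdeal)[X]) ^ f.natDegree = X * X ^ (f.natDegree - 1) := by
        rw [← pow_succ']
        congr 1
        omega
      rw [h2] at h
      rcases h.isUnit_or_isUnit rfl with h3 | h3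
      · exact not_isUnit_X h3
      · exact not_isUnit_X ((isUnit_pow_iff (by omega)).1 h3)
    refine ⟨hD, ?_⟩
    have hD' : Ideal.Quotient.mk v.asIdeal D ≠ 0 := fun h0 => hD (Ideal.Quotient.eq_zero_iff_mem.1 h0)
    have h3 := Pool.Agent.N170.PF.irr_scale (inv_ne_zero hD') h
    rwa [← scaleRoots_mul, mul_inv_cancel₀ hD', scaleRoots_one] at h3
  · rintro ⟨hD, h⟩
    exact Pool.Agent.N170.PF.irr_scale (fun h0 => hD (Ideal.Quotient.eq_zero_iff_mem.1 h0)) h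

end scale

/-- **A positive proportion of all polynomials.** -/
theorem mainU (F : Type) [Field F] [NumberField F] (T : Finset (HeightOneSpectrum (𝓞 F))) :
    ∃ S : Finset ℕ, (∀ q ∈ S, q.Prime ∧ (∀ v ∈ T, (q : 𝓞 F) ∉ v.asIdeal) ∧
      ∀ 𝔔 : Ideal (𝓞 F), 𝔔.IsPrime → (q : 𝓞 F) ∉ 𝔔 ^ 2 ∧
        ((q : 𝓞 F) ∈ 𝔔 → Nat.card (𝓞 F ⧸ 𝔔) = q)) ∧
    ∃ c : ℝ, 0 < c ∧ ∃ B₀ : ℕ, ∀ B ≥ B₀,
    {f : (𝓞 F)[X] | Ht 1 B f}.Finite ∧ c * ({f : (𝓞 F)[X] | Ht 1 B f}.ncard : ℝ) ≤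
      ({f : (𝓞 F)[X] | Ht 1 B f ∧ Irreducible (fF f) ∧
        (∀ v ∈ T, Irreducible (rd v.asIdeal f)) ∧
        (∀ (K : Type) [Field K] [NumberField K] [Algebra F K], Ext F S f K →
          SelM K ((fF f).map (algebraMap F K))) ∧ Min 1 f}.ncard : ℝ) := by
  have hg : 1 ≤ 1 := le_rfl
  obtain ⟨κ, htw⟩ := twU F
  obtain ⟨C, K₁, hbad⟩ := bad F 1 κ hg
  obtain ⟨M, hM⟩ : ∃ M : ℕ, ∀ v ∈ T, Ideal.absNorm v.asIdeal ≤ M :=
    ⟨T.sup fun v => Ideal.absNorm v.asIdeal, fun v hv =>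
      Finset.le_sup (f := fun v : HeightOneSpectrum (𝓞 F) => Ideal.absNorm v.asIdeal) hv⟩
  obtain ⟨W, f₁, hKW', hGF, c, hc, hfam⟩ := famK F (max (max K₁ κ) M)
  have hf₁ : GoodF 1 W f₁ := hGF.good
  have hKW : max K₁ κ ≤ W := (le_max_left _ _).trans hKW'
  have hTW : ∀ v ∈ T, (W : 𝓞 F) ∈ v.asIdeal := by
    intro v hv
    have hnv : 2 ≤ Ideal.absNorm v.asIdeal := (Pool.Agent.N195.PF.pf F).2.2 v
    obtain ⟨p, hp, hpd, hpm⟩ := Pool.Agent.N951.PF.prime_factor v.asIdeal v.isPrime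
      (Ideal.absNorm v.asIdeal) (by omega) (Ideal.absNorm_mem v.asIdeal)
    obtain ⟨m, hm⟩ := hGF.all p hp (((Nat.le_of_dvd (by omega) hpd).trans (hM v hv)).trans
      (le_max_right _ _))
    rw [hm, Nat.cast_mul]
    exact Ideal.mul_mem_right _ _ hpm
  obtain ⟨-, Cp, hCp, -, hpt⟩ := Pool.Agent.N490.PF.pts F
  set D : ℕ := Module.finrank ℚ F * dd 1 with hD
  obtain ⟨m, hm⟩ : ∃ m : ℕ, 2 * (C * (4 * 2 ^ κ : ℝ) ^ D) / c < 2 ^ m :=
    pow_unbounded_of_one_lt _ (by norm_num)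
  obtain ⟨S, 𝔮, h, P, hS, hcard, hspl⟩ := exsK F F W m
  have hST : ∀ q ∈ S, ∀ v : HeightOneSpectrum (𝓞 F), (W : 𝓞 F) ∈ v.asIdeal →
      (q : 𝓞 F) ∉ v.asIdeal := by
    intro q hq v hv hqv
    have hqp := (hS q hq).1
    have hWq : ¬ q ∣ W := by
      intro hd
      have := Nat.le_of_dvd hGF.pos hd
      have := (hS q hq).2.1
      omega
    have hco : Nat.Coprime q W := (Nat.Prime.coprime_iff_not_dvd hqp).2 hWq
    obtain ⟨a, b, hab⟩ := Nat.isCoprime_iff_coprime.2 hco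
    apply v.isPrime.ne_top
    rw [Ideal.eq_top_iff_one]
    have h9 : (1 : 𝓞 F) = (a : 𝓞 F) * (q : 𝓞 F) + (b : 𝓞 F) * (W : 𝓞 F) := by
      have := congrArg (Int.cast (R := 𝓞 F)) hab
      push_cast at this
      exact this.symm
    rw [h9]
    exact Ideal.add_mem _ (Ideal.mul_mem_left _ _ hqv) (Ideal.mul_mem_left _ _ hv)
  refine ⟨S, fun q hq => ⟨(hS q hq).1, fun v hv => hST q hq v (hTW v hv), hspl q hq⟩, ?_⟩
  obtain ⟨B₁₀, hB₁₀⟩ := hfam S 𝔮 h P hS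
  obtain ⟨N₀, hN₀⟩ := hbad W S 𝔮 h P ((le_max_left _ _).trans hKW) hS
  set Q : ℕ := ∏ q ∈ S, q with hQ
  have hq1 : ∀ q ∈ S, 1 ≤ q := fun q hq => (hS q hq).1.pos
  have hQ1 : 1 ≤ Q := Finset.one_le_prod' hq1
  set Pn : ℕ := (∏ q ∈ S, q ^ (2 * 1)) ^ Module.finrank ℚ F with hPn
  have hP0 : (0 : ℝ) < Pn := by
    have : 0 < Pn := pow_pos (Finset.prod_pos fun q hq => pow_pos (hq1 q hq) _) _
    exact_mod_cast this
  have hQ0 : (0 : ℝ) < Q := by exact_mod_cast hQ1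
  set X₀ : ℕ := max (max B₁₀ (4 ^ N₀)) 1 with hX₀
  refine ⟨c / 2 / (Pn * 2 ^ m * ((2 * Cp) ^ (2 * 1) * (2 * Q) ^ D)), by positivity, X₀ * Q,
    fun B hB => ?_⟩
  set B₁ : ℕ := B / Q with hB₁
  have hBX : X₀ ≤ B₁ := (Nat.le_div_iff_mul_le hQ1).2 hB
  have hb1 : 1 ≤ B₁ := (le_max_right _ _).trans hBX
  have hb2 : B₁₀ ≤ B₁ := ((le_max_left _ _).trans (le_max_left _ _)).trans hBX
  have hb3 : 4 ^ N₀ ≤ B₁ := ((le_max_right _ _).trans (le_max_left _ _)).trans hBX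
  have hBQ : B₁ * Q ≤ B := Nat.div_mul_le_self B Q
  have hBQ2 : B ≤ 2 * Q * B₁ := by
    have e1 : B < B₁ * Q + Q := by
      have := Nat.lt_div_mul_add (a := B) (b := Q) hQ1
      exact this
    nlinarith
  have hB1 : 1 ≤ B := le_trans (by nlinarith) hBQ
  obtain ⟨N, hNa, hNb⟩ : ∃ N : ℕ, 2 ^ κ * B₁ ≤ 4 ^ N ∧ 4 ^ N ≤ 4 * (2 ^ κ * B₁) := by
    refine ⟨Nat.log 4 (2 ^ κ * B₁) + 1, (Nat.lt_pow_succ_log_self (by norm_num) _).le, ?_⟩
    rw [pow_succ, mul_comm]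
    refine Nat.mul_le_mul_left 4 (Nat.pow_log_le_self 4 ?_)
    positivity
  have hNN : N₀ ≤ N := by
    have e1 : 4 ^ N₀ ≤ 4 ^ N := hb3.trans (le_trans (Nat.le_mul_of_pos_left _ (by positivity)) hNa)
    exact (Nat.pow_le_pow_iff_right (by norm_num)).1 e1
  obtain ⟨hfin, hBd⟩ := hN₀ N hNN
  refine ⟨(ht_card hCp hpt 1 B hB1).1, ?_⟩
  set H := {f : (𝓞 F)[X] | Ht 1 B f ∧ Irreducible (fF f) ∧
    (∀ v ∈ T, Irreducible (rd v.asIdeal f)) ∧
    (∀ (K : Type) [Field K] [NumberField K] [Algebra F K], Ext F S f K →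
      SelM K ((fF f).map (algebraMap F K))) ∧ Min 1 f} with hHdef
  set G := {f : (𝓞 F)[X] | Fam 1 B₁ W f₁ S P f ∧ ∀ σ : F →+* ℝ, 0 ≤ σ (f.coeff 1 : F)} \
    {f : (𝓞 F)[X] | LBad 1 N κ S 𝔮 P f} with hGdef
  have hHf : H.Finite := (ht_card hCp hpt 1 B hB1).1.subset fun f hf => hf.1
  have hGf : G.Finite := (ht_card hCp hpt 1 B₁ hb1).1.subset fun f hf => hf.1.1.ht
  have hG : c / 2 * (B₁ : ℝ) ^ D ≤ Pn * (G.ncard : ℝ) := by
    refine good_card (C := C) (m := m) (κ := κ) hc hP0 B₁ N (hB₁₀ B₁ hb2) hfin ?_ hm ?_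
    · rw [hcard] at hBd
      have e2 : Module.finrank ℚ F * (2 * N * dd 1) = 2 * N * D := by rw [hD]; ring
      rw [e2] at hBd
      exact_mod_cast hBd
    · exact_mod_cast hNb
  have hJ0 : ∀ J ⊆ S, ((Dp J : ℕ) : 𝓞 F) ≠ 0 := by
    intro J hJ
    have : 0 < ∏ q ∈ J, q := Finset.prod_pos fun q hq => hq1 q (hJ hq)
    have h5 : (Dp J : ℕ) ≠ 0 := this.ne'
    exact_mod_cast h5
  have hcard1 := card_fib hGf hHf S (fun J f => f.scaleRoots ((Dp J : ℕ) : 𝓞 F)) (by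
      intro f hf
      obtain ⟨J, hJ, hirr, hmin, hsel⟩ := htw B₁ N W f₁ S 𝔮 h P f
        ((le_max_right _ _).trans hKW) hf₁ hS hf.1.1 hNa hb1 hf.2
      have hDle : Dp J ≤ Q :=
        Finset.prod_le_prod_of_subset_of_one_le' hJ fun q hq _ => hq1 q hq
      have hmf := hf.1.1.ht.mon
      have hdf : 2 ≤ f.natDegree := by
        rw [hf.1.1.ht.deg]
        norm_num
      refine ⟨J, hJ, ht_scale hf.1.1.ht ((Nat.mul_le_mul_left _ hDle).trans hBQ), hirr, ?_, ?_, hmin⟩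
      · intro v hv
        rw [irr_scale_iff v hmf hdf]
        refine ⟨fun hD => ?_, hGF.irr_of hf.1.1.one v (hTW v hv)⟩
        rw [Dp, Nat.cast_prod] at hD
        haveI := v.isPrime
        obtain ⟨q, hq, hqv⟩ := (Ideal.IsPrime.prod_mem_iff).1 hD
        exact hST q (hJ hq) v (hTW v hv) hqv
      · intro K _ _ _ hE
        haveI := hE.gal
        obtain ⟨n, hn⟩ := hE.deg
        refine hsel K n hn ⟨fun w hw => ?_, hE.spl, fun w hw => ?_, hf.1.2⟩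
        · exact ((irr_scale_iff w hmf hdf _).1 (hE.ram w hw)).2
        · refine Pool.Agent.V7H54.V3.s_H hn hE.two w f hw hf.1.1.ht.mon hf.1.1.ht.deg ?_
            (hGF.typ_of hf.1.1.one w hw)
          refine hGF.irr_of hf.1.1.one w ?_
          obtain ⟨m', hm'⟩ := hGF.four
          rw [hm']
          push_cast
          refine Ideal.mul_mem_right _ _ ?_
          have e : (4 : 𝓞 F) = 2 * 2 := by norm_num
          rw [e]
          exact Ideal.mul_mem_right _ _ hw) (by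
      intro J hJ x hx y hy hxy
      exact scale_inj (hJ0 J hJ) (by rw [hx.1.1.ht.deg, hy.1.1.ht.deg]) hxy)
  rw [hcard] at hcard1
  have hcard' : (G.ncard : ℝ) ≤ 2 ^ m * H.ncard := by exact_mod_cast hcard1
  have hM' : ({f : (𝓞 F)[X] | Ht 1 B f}.ncard : ℝ) ≤
      (2 * Cp) ^ (2 * 1) * (2 * Q) ^ D * (B₁ : ℝ) ^ D := by
    have e1 : ({f : (𝓞 F)[X] | Ht 1 B f}.ncard : ℝ) ≤ (2 * Cp) ^ (2 * 1) * (B : ℝ) ^ D :=
      (ht_card hCp hpt 1 B hB1).2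
    refine e1.trans ?_
    rw [mul_assoc, ← mul_pow]
    have e2 : (B : ℝ) ≤ 2 * Q * B₁ := by exact_mod_cast hBQ2
    gcongr
  calc c / 2 / (Pn * 2 ^ m * ((2 * Cp) ^ (2 * 1) * (2 * Q) ^ D)) *
        ({f : (𝓞 F)[X] | Ht 1 B f}.ncard : ℝ)
      ≤ c / 2 / (Pn * 2 ^ m * ((2 * Cp) ^ (2 * 1) * (2 * Q) ^ D)) *
        ((2 * Cp) ^ (2 * 1) * (2 * Q) ^ D * (B₁ : ℝ) ^ D) :=
        mul_le_mul_of_nonneg_left hM' (by positivity)
    _ = c / 2 * (B₁ : ℝ) ^ D / (Pn * 2 ^ m) := by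
        field_simp
    _ ≤ (Pn * (G.ncard : ℝ)) / (Pn * 2 ^ m) := by gcongr
    _ ≤ (Pn * (2 ^ m * H.ncard)) / (Pn * 2 ^ m) := by gcongr
    _ = H.ncard := by field_simp

end Pool.Agent.V7H54.U
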