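import Pool.Agent.V7H54.U.MainM
import Pool.Agent.V7H54.U.FinU

/-!
# The theorem for elliptic curves, over all `K` at once; the primes in `S` split completely in `M₀`

After `FinU`.
-/

set_option autoImplicit false
set_option linter.all false

open Polynomial NumberField IsDedekindDomain
open scoped Classical

namespace Pool.Agent.V7H54.U

open Pool.Agent.V7H54
open Pool.Agent.N783.PF
open Pool.Agent.N61.PF (eq_pol fF_eq disc_ne crv_finite crv_upper ht_lower crv_of_ht exists_B)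
open Pool.Agent.N874.PP (sW)
open Pool.Agent.TH115.GD (Pt)
open Pool.Agent.N874.QM (SelC ShaC SelM)

/-- `E` is good over all the extensions `K`. -/
def GoodM (F M₀ : Type) [Field F] [NumberField F] [Field M₀] [NumberField M₀] [Algebra F M₀]
    (S : Finset ℕ)
    (T : Finset (HeightOneSpectrum (𝓞 F))) (p : 𝓞 F × 𝓞 F) : Prop :=
  (∀ v ∈ T, Irreducible (rd v.asIdeal (cubic p))) ∧
  (∀ v, ¬ Unr F M₀ v → Irreducible (rd v.asIdeal (cubic p))) ∧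
  ∀ (K : Type) [Field K] [NumberField K] [Algebra F K], Ext F S (cubic p) K → GoodK F K p

/-- **The theorem for elliptic curves.** -/
theorem finM (F M₀ : Type) [Field F] [NumberField F] [Field M₀] [NumberField M₀] [Algebra F M₀]
    (T : Finset (HeightOneSpectrum (𝓞 F))) :
    ∃ S : Finset ℕ, (∀ q ∈ S, q.Prime ∧ (∀ v ∈ T, (q : 𝓞 F) ∉ v.asIdeal) ∧
      ∀ 𝔔 : Ideal (𝓞 M₀), 𝔔.IsPrime → (q : 𝓞 M₀) ∉ 𝔔 ^ 2 ∧
        ((q : 𝓞 M₀) ∈ 𝔔 → Nat.card (𝓞 M₀ ⧸ 𝔔) = q)) ∧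
    ∃ c : ℝ, 0 < c ∧ ∃ Y₀ : ℝ,
    ∀ Y : ℝ, {p : 𝓞 F × 𝓞 F | Crv Y p}.Finite ∧ (Y₀ ≤ Y → 0 < {p : 𝓞 F × 𝓞 F | Crv Y p}.ncard ∧
    c * ({p : 𝓞 F × 𝓞 F | Crv Y p}.ncard : ℝ) ≤
      ({p : 𝓞 F × 𝓞 F | Crv Y p ∧ GoodM F M₀ S T p}.ncard : ℝ)) := by
  have h0 := Pool.Agent.N490.PF.pts
  obtain ⟨-, C, hC, hlow, hup⟩ := h0 F
  obtain ⟨S, hST, c, hc, B₀, hmain⟩ := mainM F M₀ T
  refine ⟨S, hST, ?_⟩
  set d := Module.finrank ℚ F with hd
  set B₁ : ℕ := max B₀ 1 with hB₁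
  refine ⟨c / (C ^ 2 * (C ^ 2 * 2 ^ (6 * d + 2))), by positivity, 27 * (B₁ : ℝ) ^ 6, ?_⟩
  intro Y
  have hfin := crv_finite (F := F) h0 Y
  refine ⟨hfin, ?_⟩
  intro hY
  have hB₁1 : 1 ≤ B₁ := le_max_right _ _
  have hB₁r : (1 : ℝ) ≤ B₁ := by exact_mod_cast hB₁1
  have hY27 : 27 ≤ Y := by
    have : (1 : ℝ) ≤ (B₁ : ℝ) ^ 6 := one_le_pow₀ hB₁r
    linarith
  obtain ⟨B, hBB, hBY, hYB⟩ := exists_B B₁ Y hB₁1 hY
  have hB1 : 1 ≤ B := hB₁1.trans hBB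
  obtain ⟨hfinH, hprop⟩ := hmain B ((le_max_left _ _).trans hBB)
  constructor
  · rw [Set.ncard_pos hfin]
    refine ⟨(1, 1), ⟨?_, ?_, ?_⟩⟩
    · norm_num
    · intro 𝔭 hp _ hcon
      apply hp.ne_top
      rw [Ideal.eq_top_iff_one]
      exact Ideal.pow_le_self (by norm_num) hcon.1
    · intro σ
      constructor
      · simp; linarith
      · simp; linarith
  · have hu := crv_upper hC hup hB1 hYB
    have hl := ht_lower hC hlow hB1 hfinH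
    rw [← hd] at hu hl
    -- the good polynomials give good curves
    have h5 : ({f : (𝓞 F)[X] | Ht 1 B f ∧ Irreducible (fF f) ∧
        (∀ v ∈ T, Irreducible (rd v.asIdeal f)) ∧
        (∀ v, ¬ Unr F M₀ v → Irreducible (rd v.asIdeal f)) ∧
        (∀ (K : Type) [Field K] [NumberField K] [Algebra F K], Ext F S f K →
          SelM K ((fF f).map (algebraMap F K))) ∧ Min 1 f}.ncard : ℝ) ≤
        ({p : 𝓞 F × 𝓞 F | Crv Y p ∧ GoodM F M₀ S T p}.ncard : ℝ) := by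
      have h6 := Set.ncard_le_ncard_of_injOn (fun f : (𝓞 F)[X] => (f.coeff 1, f.coeff 0))
        (s := {f : (𝓞 F)[X] | Ht 1 B f ∧ Irreducible (fF f) ∧
          (∀ v ∈ T, Irreducible (rd v.asIdeal f)) ∧
          (∀ v, ¬ Unr F M₀ v → Irreducible (rd v.asIdeal f)) ∧
          (∀ (K : Type) [Field K] [NumberField K] [Algebra F K], Ext F S f K →
            SelM K ((fF f).map (algebraMap F K))) ∧ Min 1 f})
        (t := {p : 𝓞 F × 𝓞 F | Crv Y p ∧ GoodM F M₀ S T p})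
        (fun f hf => ⟨crv_of_ht hf.1 hf.2.1 hf.2.2.2.2.2 hBY, by
          unfold GoodM
          rw [cubic_eq hf.1]
          refine ⟨hf.2.2.1, hf.2.2.2.1, fun K _ _ _ hE => ?_⟩
          obtain ⟨n, hn⟩ := hE.deg
          exact good_ofK n hn hf.1 hf.2.1 (hf.2.2.2.2.1 K hE)⟩)
        (by
          intro f hf f' hf' h
          have e := Prod.mk.injEq .. ▸ h
          rw [eq_pol hf.1, eq_pol hf'.1, e.1, e.2])
        (hfin.subset fun p hp => hp.1)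
      exact_mod_cast h6
    have hBd : 0 < (B : ℝ) ^ (5 * d) := by
      have : (0 : ℝ) < B := by exact_mod_cast hB1
      positivity
    have h7 : ({p : 𝓞 F × 𝓞 F | Crv Y p}.ncard : ℝ) ≤
        (C ^ 2 * 2 ^ (6 * d + 2)) * (C ^ 2 * ({f : (𝓞 F)[X] | Ht 1 B f}.ncard : ℝ)) :=
      hu.trans (mul_le_mul_of_nonneg_left hl (by positivity))
    calc c / (C ^ 2 * (C ^ 2 * 2 ^ (6 * d + 2))) * ({p : 𝓞 F × 𝓞 F | Crv Y p}.ncard : ℝ)
        ≤ c / (C ^ 2 * (C ^ 2 * 2 ^ (6 * d + 2))) *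
          ((C ^ 2 * 2 ^ (6 * d + 2)) * (C ^ 2 * ({f : (𝓞 F)[X] | Ht 1 B f}.ncard : ℝ))) :=
          mul_le_mul_of_nonneg_left h7 (by positivity)
      _ = c * ({f : (𝓞 F)[X] | Ht 1 B f}.ncard : ℝ) := by
          field_simp
      _ ≤ _ := hprop.trans h5

end Pool.Agent.V7H54.U
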